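import Pool.Agent.Helper68.IcFail

set_option autoImplicit false

namespace Pool.Agent.Results.MP_a21e0e_an.InterlacedFails

open Pool.Agent.Helper68.Ic

/-- There is a real Banach space `X` which is `2`-AUS and complemented in its bidual, whose
quotient `X** / X` is isomorphic to `ℓ²` (so reflexive and `2`-AUSable), and which fails the
`2`-interlaced concentration inequality. -/
theorem result : ∃ (X : Type) (_ : NormedAddCommGroup X) (_ : NormedSpace ℝ X)
    (_ : CompleteSpace X), IsAUS X 2 ∧ (canonicalImage X).ClosedComplemented ∧
      Nonempty (BidualQuotient X ≃L[ℝ] lp (fun _ : ℕ => ℝ) 2) ∧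
      IsReflexive (BidualQuotient X) ∧ IsAUSable (BidualQuotient X) 2 ∧
      ¬ InterlacedConcentration X 2 :=
  ⟨XX, inferInstance, inferInstance, inferInstance, isAUS_XX, complemented, ⟨WW.symm⟩,
    quotient_reflexive, quotient_AUSable, fails⟩

end Pool.Agent.Results.MP_a21e0e_an.InterlacedFails
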